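import Pool.Agent.W2helper32.LP.Stm
import Pool.Agent.H263R2.Stress.Gen

/-!
# Piece LP-GEN: algebraically independent vectors are dense
-/

set_option autoImplicit false

namespace Pool.Agent.W2helper71.LP

open Pool.Agent.W2helper32.LP Filter Topology

theorem p_gen : P_GEN := by
  intro V _ r s hs
  have h : ∀ᶠ x in 𝓝 r, x ∈ s := hs
  obtain ⟨x, hx, hi⟩ := Pool.Agent.H263R2.Stress.exists_algInd_of_eventually h
  exact ⟨x, hx, hi⟩

end Pool.Agent.W2helper71.LP
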